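import Mathlib
import Pool.Agent.Q67.GreedyWalk

/-! A greedy planar sign walk whose sign sequence has least period `28`. -/

namespace Pool.Agent.Results.MP_fc1ccb_an.PeriodDivisibleByFour

open Q67.GreedyWalk

/-- numerators of the 28 points of a periodic orbit of `w ↦ (w - sgn Re w) e^{-2 π i α}` -/
def L : List (ℤ × ℤ) :=
  [(877169634753568527505, -592682185644303059125),
   (-550264513015992883369, -220186732654776163525),
   (-81927105981269043745, -386407525333704219275),
   (-61398237185974342871, -882943369249131288875),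
   (-514416207526917583247, -1087256847255336372325),
   (-873004624901612254873, -743187630859083407125),
   (-687579214768064035249, -282116382543136893275),
   (-190619177394011414375, -282116382543136893275),
   (-5193767260463194751, -743187630859083407125),
   (-363782184635157866377, -1087256847255336372325),
   (-816800154976101106753, -882943369249131288875),
   (-796271286180806405879, -386407525333704219275),
   (-327933879146082566255, -220186732654776163525),
   (1028757408506922119, -592682185644303059125),
   (-877169634753568527505, 592682185644303059125),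
   (550264513015992883369, 220186732654776163525),
   (81927105981269043745, 386407525333704219275),
   (61398237185974342871, 882943369249131288875),
   (514416207526917583247, 1087256847255336372325),
   (873004624901612254873, 743187630859083407125),
   (687579214768064035249, 282116382543136893275),
   (190619177394011414375, 282116382543136893275),
   (5193767260463194751, 743187630859083407125),
   (363782184635157866377, 1087256847255336372325),
   (816800154976101106753, 882943369249131288875),
   (796271286180806405879, 386407525333704219275),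
   (327933879146082566255, 220186732654776163525),
   (-1028757408506922119, 592682185644303059125)]

/-- the common denominator -/
def D : ℤ := 878198392162075449624

/-- the signs -/
def S : List ℤ := [-1, 1, 1, 1, 1, 1, 1, 1, 1, 1, 1, 1, 1, -1, 1, -1, -1, -1, -1, -1, -1, -1, -1, -1, -1, -1, -1, 1]

def cx (k : ℕ) : ℤ := (L.getD k (0, 0)).1
def cy (k : ℕ) : ℤ := (L.getD k (0, 0)).2
def cs (k : ℕ) : ℤ := S.getD k 1

theorem step_x : ∀ k < 28, 997 * cx ((k + 1) % 28) = (cx k + cs k * D) * 372 + cy k * 925 := by
  decide

theorem step_y : ∀ k < 28, 997 * cy ((k + 1) % 28) = cy k * 372 - (cx k + cs k * D) * 925 := by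
  decide

theorem sign_ok : ∀ k < 28, cx k * cs k < 0 := by decide

theorem cs_ok : ∀ k < 28, cs k = 1 ∨ cs k = -1 := by decide

theorem no_smaller : ∀ p < 28, 1 ≤ p → ∃ k < 28, cs ((k + p) % 28) ≠ cs k := by decide

theorem D_pos : 0 < D := by decide

noncomputable def W (n : ℕ) : ℂ :=
  ((cx (n % 28) : ℂ) + (cy (n % 28) : ℂ) * Complex.I) / (D : ℂ)

noncomputable def lam : ℂ := ⟨372 / 997, 925 / 997⟩

noncomputable def alpha : ℝ := Complex.arg lam / (2 * Real.pi)

theorem norm_lam : ‖lam‖ = 1 := by
  have h : ‖lam‖ ^ 2 = 1 := by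
    rw [← Complex.normSq_eq_norm_sq, Complex.normSq_apply]
    norm_num [lam]
  nlinarith [norm_nonneg lam]

theorem exp_alpha : Complex.exp (2 * (Real.pi : ℂ) * Complex.I * (alpha : ℂ)) = lam := by
  have h1 : 2 * (Real.pi : ℂ) * Complex.I * (alpha : ℂ) = (Complex.arg lam : ℂ) * Complex.I := by
    rw [alpha]
    have : (Real.pi : ℂ) ≠ 0 := by exact_mod_cast Real.pi_ne_zero
    push_cast
    field_simp
  rw [h1]
  have h2 := Complex.norm_mul_exp_arg_mul_I lam
  rw [norm_lam] at h2
  simpa using h2

theorem alpha_pos : 0 < alpha := by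
  have h : 0 < Complex.arg lam := by
    have h0 : 0 ≤ Complex.arg lam := by
      rw [Complex.arg_nonneg_iff]; norm_num [lam]
    rcases h0.lt_or_eq with h | h
    · exact h
    · exfalso
      have := (Complex.arg_eq_zero_iff.mp h.symm).2
      norm_num [lam] at this
  unfold alpha
  positivity

theorem alpha_irrational : Irrational alpha := by
  rintro ⟨r, hr⟩
  have hcos : Real.cos (Complex.arg lam) = 372 / 997 := by
    have h0 : lam ≠ 0 := by
      intro h
      have := norm_lam
      rw [h] at this
      simp at this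
    rw [Complex.cos_arg h0, norm_lam]
    norm_num [lam]
  have harg : Complex.arg lam = ((2 * r : ℚ) : ℝ) * Real.pi := by
    have : Complex.arg lam = alpha * (2 * Real.pi) := by
      rw [alpha]
      field_simp
    rw [this, ← hr]
    push_cast; ring
  have h := niven (θ := Complex.arg lam) ⟨2 * r, harg⟩ ⟨372 / 997, by rw [hcos]; norm_num⟩
  rw [hcos] at h
  norm_num at h

noncomputable def q : ℂ := ⟨372 / 997, -925 / 997⟩

theorem q_mul : q * Complex.exp (2 * (Real.pi : ℂ) * Complex.I * (alpha : ℂ)) = 1 := by
  rw [exp_alpha]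
  apply Complex.ext <;> norm_num [q, lam]

theorem W_step (n : ℕ) : W (n + 1) = (W n + ((cs (n % 28) : ℤ) : ℂ)) * q := by
  have hk : n % 28 < 28 := Nat.mod_lt _ (by norm_num)
  have e : (n + 1) % 28 = (n % 28 + 1) % 28 := by omega
  have hx := step_x _ hk
  have hy := step_y _ hk
  rw [W, W, e]
  set k := n % 28
  have hx' : (997 : ℂ) * (cx ((k + 1) % 28) : ℂ) = ((cx k : ℂ) + cs k * D) * 372 + cy k * 925 := by
    exact_mod_cast hx
  have hy' : (997 : ℂ) * (cy ((k + 1) % 28) : ℂ) = (cy k : ℂ) * 372 - ((cx k : ℂ) + cs k * D) * 925 := by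
    exact_mod_cast hy
  have hD : (D : ℂ) ≠ 0 := by exact_mod_cast D_pos.ne'
  have hq : q = (372 - 925 * Complex.I) / 997 := by
    apply Complex.ext <;> simp [q]
  rw [hq]
  rw [div_eq_iff hD]
  have : (997 : ℂ) ≠ 0 := by norm_num
  rw [← sub_eq_zero]
  have h2 : (997 : ℂ) * (((cx ((k + 1) % 28) : ℂ) + (cy ((k + 1) % 28) : ℂ) * Complex.I)
      - (((cx k : ℂ) + (cy k : ℂ) * Complex.I) / (D : ℂ) + ((cs k : ℤ) : ℂ)) *
        ((372 - 925 * Complex.I) / 997) * (D : ℂ)) = 0 := by
    field_simp
    linear_combination hx' + Complex.I * hy' + (925 : ℂ) * cy k * Complex.I_sq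
  exact (mul_eq_zero.mp h2).resolve_left this

theorem main : Admissible alpha (W 0) ∧ ∀ n, sgn alpha (W 0) n = cs (n % 28) := by
  refine of_orbit alpha q q_mul W (fun n => cs (n % 28))
    (fun n => cs_ok _ (Nat.mod_lt _ (by norm_num))) W_step ?_
  intro n
  have h := sign_ok (n % 28) (Nat.mod_lt _ (by norm_num))
  have hre : (W n).re = (cx (n % 28) : ℝ) / (D : ℝ) := by
    rw [W]
    have : ((cx (n % 28) : ℂ) + (cy (n % 28) : ℂ) * Complex.I) / (D : ℂ)
        = (((cx (n % 28) : ℝ) / (D : ℝ) : ℝ) : ℂ) + (((cy (n % 28) : ℝ) / (D : ℝ) : ℝ) : ℂ) * Complex.I := by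
      push_cast; ring
    rw [this]
    simp
  rw [hre]
  have hD : (0 : ℝ) < D := by exact_mod_cast D_pos
  have h' : (cx (n % 28) : ℝ) * (cs (n % 28) : ℝ) < 0 := by exact_mod_cast h
  rw [div_mul_eq_mul_div]
  exact div_neg_of_neg_of_pos h' hD

/-- There are an irrational `α > 0` and a starting point, admissible, whose greedy sign sequence
is eventually periodic with least period divisible by `4` (in fact `28`). -/
theorem result : ∃ (α : ℝ) (z : ℂ), 0 < α ∧ Irrational α ∧ Admissible α z ∧
    ∃ p, IsLeast {p | IsEventualPeriod (sgn α z) p} p ∧ 4 ∣ p := by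
  refine ⟨alpha, W 0, alpha_pos, alpha_irrational, main.1, 28, ⟨?_, ?_⟩, by norm_num⟩
  · refine ⟨by norm_num, 0, fun n _ => ?_⟩
    rw [main.2, main.2]
    congr 1
    omega
  · rintro p ⟨hp1, N, hN⟩
    by_contra hlt
    push Not at hlt
    obtain ⟨k, hk, hne⟩ := no_smaller p hlt hp1
    apply hne
    have h := hN (28 * N + k) (by omega)
    rw [main.2, main.2] at h
    rw [show (28 * N + k + p) % 28 = (k + p) % 28 by omega,
      show (28 * N + k) % 28 = k by omega] at h
    exact h

end Pool.Agent.Results.MP_fc1ccb_an.PeriodDivisibleByFour
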